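import Pool.Agent.H72.BF.Targets

/-!
Module EXPU for MP_3cf473_nt (helper72): uniqueness of exponential polynomials.
-/

open Polynomial Finset
open Pool.Agent.H72.BF

namespace Pool.Agent.H30.BF

theorem lc_comp (c : ℂ[X]) : (c.comp (X + C 1)).leadingCoeff = c.leadingCoeff := by
  rw [leadingCoeff_comp (by rw [natDegree_X_add_C]; exact one_ne_zero), leadingCoeff_X_add_C,
    one_pow, mul_one]

theorem natDegree_comp' (c : ℂ[X]) : (c.comp (X + C 1)).natDegree = c.natDegree := by
  rw [natDegree_comp, natDegree_X_add_C, mul_one]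

theorem comp_ne_zero {c : ℂ[X]} (h : c ≠ 0) : c.comp (X + C 1) ≠ 0 := by
  intro h0
  have h1 := lc_comp c
  rw [h0, leadingCoeff_zero] at h1
  exact h (leadingCoeff_eq_zero.mp h1.symm)

theorem degree_comp' (c : ℂ[X]) : (c.comp (X + C 1)).degree = c.degree := by
  by_cases h : c = 0
  · simp [h]
  · rw [degree_eq_natDegree h, degree_eq_natDegree (comp_ne_zero h), natDegree_comp']

theorem degree_diff {c : ℂ[X]} (h : c ≠ 0) : (c.comp (X + C 1) - c).degree < c.degree := by
  have h1 := degree_sub_lt (degree_comp' c) (comp_ne_zero h) (lc_comp c)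
  rwa [degree_comp'] at h1

theorem const_of_diff {c : ℂ[X]} (h : c.comp (X + C 1) - c = 0) : c = C (c.eval 0) := by
  have h1 : ∀ n : ℕ, c.eval (n : ℂ) = c.eval 0 := by
    intro n
    induction n with
    | zero => simp
    | succ n ih =>
      have h2 := congrArg (fun p => p.eval (n : ℂ)) h
      simp only [eval_sub, eval_comp, eval_add, eval_X, eval_C, eval_zero] at h2
      push_cast
      rw [sub_eq_zero.mp h2, ih]
  apply Polynomial.eq_of_infinite_eval_eq
  refine Set.Infinite.mono ?_ (Set.infinite_range_of_injective (f := fun n : ℕ => (n : ℂ))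
    Nat.cast_injective)
  rintro _ ⟨n, rfl⟩
  rw [Set.mem_setOf_eq, eval_C]
  exact h1 n

theorem main (M : ℕ) : ∀ (Γ : Finset ℂ) (d : ℂ → ℕ) (c : ℂ → ℂ[X]), (0 : ℂ) ∉ Γ →
    (∀ g ∈ Γ, (c g).degree < d g) → ∑ g ∈ Γ, d g = M →
    (∀ s < M, ∑ g ∈ Γ, (c g).eval (s : ℂ) * g ^ s = 0) → ∀ g ∈ Γ, c g = 0 := by
  classical
  induction M with
  | zero =>
    intro Γ d c _ hdeg hsum _ g hg
    have h1 : d g = 0 := by
      rw [Finset.sum_eq_zero_iff] at hsum
      exact hsum g hg
    have h2 := hdeg g hg
    rw [h1, Nat.cast_zero] at h2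
    by_contra hne
    exact absurd h2 (not_lt.mpr (zero_le_degree_iff.mpr hne))
  | succ M ih =>
    intro Γ d c h0 hdeg hsum hu
    obtain ⟨g0, hg0, hd0⟩ : ∃ g ∈ Γ, d g ≠ 0 := by
      by_contra hcon
      push Not at hcon
      rw [Finset.sum_eq_zero hcon] at hsum
      omega
    let d' : ℂ → ℕ := Function.update d g0 (d g0 - 1)
    let c' : ℂ → ℂ[X] := fun g => C g * (c g).comp (X + C 1) - C g0 * c g
    have hc'0 : c' g0 = C g0 * ((c g0).comp (X + C 1) - c g0) := by
      simp only [c']
      ring
    have hg00 : g0 ≠ 0 := fun h => h0 (h ▸ hg0)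
    have key := ih Γ d' c' h0 ?_ ?_ ?_
    · have hoth : ∀ g ∈ Γ, g ≠ g0 → c g = 0 := by
        intro g hg hne
        by_contra hcg
        have h1 := key g hg
        simp only [c'] at h1
        have h2 := congrArg leadingCoeff (sub_eq_zero.mp h1)
        rw [leadingCoeff_mul, leadingCoeff_mul, leadingCoeff_C, leadingCoeff_C, lc_comp] at h2
        exact hne (mul_right_cancel₀ (leadingCoeff_ne_zero.mpr hcg) h2)
      have h1 := key g0 hg0
      rw [hc'0] at h1
      have h2 : (c g0).comp (X + C 1) - c g0 = 0 := by
        rcases mul_eq_zero.mp h1 with h3 | h3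
        · exact absurd (C_eq_zero.mp h3) hg00
        · exact h3
      have h3 := const_of_diff h2
      have h4 := hu 0 (Nat.succ_pos M)
      rw [Finset.sum_eq_single g0] at h4
      · simp only [Nat.cast_zero, pow_zero, mul_one] at h4
        rw [h4, C_0] at h3
        intro g hg
        by_cases hgg : g = g0
        · rw [hgg]
          exact h3
        · exact hoth g hg hgg
      · intro g hg hne
        rw [hoth g hg hne]
        simp
      · intro h
        exact absurd hg0 h
    · intro g hg
      by_cases hgg : g = g0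
      · rw [hgg, hc'0]
        simp only [d', Function.update_self]
        by_cases hc0 : c g0 = 0
        · simp only [hc0, zero_comp, sub_zero, mul_zero, degree_zero]
          exact WithBot.bot_lt_coe _
        · have h1 := degree_diff hc0
          have h2 := hdeg g0 hg0
          have h3 : (C g0 * ((c g0).comp (X + C 1) - c g0)).degree
              ≤ ((c g0).comp (X + C 1) - c g0).degree := by
            rw [degree_C_mul hg00]
          refine lt_of_le_of_lt h3 (lt_of_lt_of_le h1 ?_)
          rw [degree_eq_natDegree hc0] at h2 ⊢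
          have h4 : (c g0).natDegree < d g0 := by exact_mod_cast h2
          have h5 : (c g0).natDegree ≤ d g0 - 1 := by omega
          exact_mod_cast h5
      · simp only [d', Function.update_of_ne hgg]
        simp only [c']
        refine lt_of_le_of_lt (degree_sub_le _ _) (max_lt ?_ ?_)
        · refine lt_of_le_of_lt (degree_mul_le _ _) ?_
          have h1 : (C g : ℂ[X]).degree ≤ 0 := degree_C_le
          refine lt_of_le_of_lt (add_le_add_left h1 _) ?_
          rw [zero_add, degree_comp']
          exact hdeg g hg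
        · refine lt_of_le_of_lt (degree_mul_le _ _) ?_
          have h1 : (C g0 : ℂ[X]).degree ≤ 0 := degree_C_le
          refine lt_of_le_of_lt (add_le_add_left h1 _) ?_
          rw [zero_add]
          exact hdeg g hg
    · have h1 := Finset.sum_update_of_mem hg0 d (d g0 - 1)
      have h2 := Finset.add_sum_erase Γ d hg0
      simp only [d']
      rw [h1, ← Finset.erase_eq]
      omega
    · intro s hs
      have h1 := hu (s + 1) (by omega)
      have h2 := hu s (by omega)
      have h3 : ∑ g ∈ Γ, (c' g).eval (s : ℂ) * g ^ s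
          = ∑ g ∈ Γ, (c g).eval ((s + 1 : ℕ) : ℂ) * g ^ (s + 1) -
            g0 * ∑ g ∈ Γ, (c g).eval (s : ℂ) * g ^ s := by
        rw [Finset.mul_sum, ← Finset.sum_sub_distrib]
        refine Finset.sum_congr rfl fun g _ => ?_
        simp only [c', eval_sub, eval_mul, eval_C, eval_comp, eval_add, eval_X]
        push_cast
        ring
      rw [h3, h1, h2]
      ring

theorem expu : T_EXPU := by
  intro Γ c d h0 hdeg hu
  exact main (Γ.card * d) Γ (fun _ => d) c h0 hdeg (by simp) hu

end Pool.Agent.H30.BF
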