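import Mathlib
import Pool.Agent.H72.BF.Targets

open Polynomial Finset

namespace Pool.Agent.H30.BF

open Pool.Agent.H72.BF

noncomputable section

/-- being the image of an integer polynomial -/
def IsZ (P : ℂ[X]) : Prop := ∃ F : ℤ[X], F.map (Int.castRingHom ℂ) = P

theorem IsZ.add {P Q : ℂ[X]} (hP : IsZ P) (hQ : IsZ Q) : IsZ (P + Q) := by
  obtain ⟨F, rfl⟩ := hP
  obtain ⟨G, rfl⟩ := hQ
  exact ⟨F + G, by simp⟩

theorem IsZ.mul {P Q : ℂ[X]} (hP : IsZ P) (hQ : IsZ Q) : IsZ (P * Q) := by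
  obtain ⟨F, rfl⟩ := hP
  obtain ⟨G, rfl⟩ := hQ
  exact ⟨F * G, by simp⟩

theorem IsZ.pow {P : ℂ[X]} (hP : IsZ P) (n : ℕ) : IsZ (P ^ n) := by
  obtain ⟨F, rfl⟩ := hP
  exact ⟨F ^ n, by simp⟩

theorem isZ_one : IsZ 1 := ⟨1, by simp⟩

theorem binP_zero : binP 0 = 1 := by simp [binP]

theorem dvd_lcm {h i : ℕ} (h1 : 1 ≤ i) (h2 : i ≤ h) : i ∣ Nat.lcmUpto h := by
  unfold Nat.lcmUpto
  exact Finset.dvd_lcm (f := id) (Finset.mem_Icc.2 ⟨h1, h2⟩)

theorem binP_comp (ν : ℕ) (b : ℕ) (hd : ∀ i, 1 ≤ i → i ≤ b + 1 → i ∣ ν) :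
    IsZ ((binP (b + 1)).comp (C (ν : ℂ) * X)) := by
  refine ⟨C ((ν / (b + 1) : ℕ) : ℤ) * X * ∏ i ∈ Finset.range b, (C ((ν / (i + 1) : ℕ) : ℤ) * X - 1), ?_⟩
  have hfac : ∀ n : ℕ, ((n.factorial : ℂ))⁻¹ = ∏ i ∈ Finset.range n, ((i : ℂ) + 1)⁻¹ := by
    intro n
    induction n with
    | zero => simp
    | succ n ih =>
      rw [Nat.factorial_succ, Finset.prod_range_succ, ← ih]
      push_cast
      rw [mul_inv]
      ring
  have hdiv : ∀ i, i + 1 ∣ ν → (((ν / (i + 1) : ℕ) : ℕ) : ℂ) = ((i : ℂ) + 1)⁻¹ * ν := by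
    intro i hi
    obtain ⟨q, rfl⟩ := hi
    have : (i : ℂ) + 1 ≠ 0 := by exact_mod_cast Nat.succ_ne_zero i
    rw [Nat.mul_div_cancel_left _ (Nat.succ_pos i)]
    push_cast
    field_simp
  have hC : ∀ n : ℕ, Polynomial.map (Int.castRingHom ℂ) (C ((n : ℕ) : ℤ)) = C (n : ℂ) := by
    intro n
    simp
  unfold binP
  rw [Finset.prod_range_succ', hfac (b + 1), Finset.prod_range_succ]
  simp only [Polynomial.mul_comp, Polynomial.C_comp, Polynomial.sub_comp, Polynomial.X_comp,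
    Polynomial.prod_comp, Polynomial.map_mul, Polynomial.map_prod, Polynomial.map_sub,
    hC, Polynomial.map_X, Polynomial.map_one]
  rw [hdiv b (hd (b + 1) (by omega) le_rfl)]
  have hp : ∀ i ∈ Finset.range b, (C (((ν / (i + 1) : ℕ) : ℕ) : ℂ) * X - 1 : ℂ[X]) =
      C (((i : ℂ) + 1)⁻¹) * (C (ν : ℂ) * X - C ((i + 1 : ℕ) : ℂ)) := by
    intro i hi
    rw [Finset.mem_range] at hi
    rw [hdiv i (hd (i + 1) (by omega) (by omega))]
    have h1 : (i : ℂ) + 1 ≠ 0 := by exact_mod_cast Nat.succ_ne_zero i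
    rw [mul_sub, ← mul_assoc, ← C_mul, ← C_mul]
    push_cast
    rw [inv_mul_cancel₀ h1]
    simp
  rw [Finset.prod_congr rfl hp, Finset.prod_mul_distrib, ← map_prod]
  simp only [C_mul, Nat.cast_zero, C_0, sub_zero]
  ring

theorem pascal (a : ℕ) : (binP (a + 1)).comp (X + 1) = binP (a + 1) + binP a := by
  have h2 : ((a + 1).factorial : ℂ)⁻¹ * ((a : ℂ) + 1) = ((a.factorial : ℂ))⁻¹ := by
    rw [Nat.factorial_succ]
    push_cast
    have h1 : (a : ℂ) + 1 ≠ 0 := by exact_mod_cast Nat.succ_ne_zero a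
    field_simp
  unfold binP
  simp only [Polynomial.mul_comp, Polynomial.C_comp, Polynomial.sub_comp, Polynomial.X_comp,
    Polynomial.prod_comp]
  rw [← h2, Finset.prod_range_succ', Finset.prod_range_succ]
  have : ∀ k ∈ Finset.range a, (X + 1 - C (((k + 1 : ℕ) : ℂ)) : ℂ[X]) = X - C ((k : ℕ) : ℂ) := by
    intro k _
    push_cast
    simp only [map_add, map_one]
    ring
  rw [Finset.prod_congr rfl this]
  simp only [C_mul, map_add, map_one, Nat.cast_zero, C_0, sub_zero]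
  ring

theorem binP_shift (ν h : ℕ) (hd : ∀ i, 1 ≤ i → i ≤ h → i ∣ ν) (s : ℕ) :
    ∀ a, a ≤ h → IsZ ((binP a).comp (C (ν : ℂ) * X + C (s : ℂ))) := by
  induction s with
  | zero =>
    intro a ha
    rcases a with _ | b
    · rw [binP_zero]; simpa using isZ_one
    · simpa using binP_comp ν b (fun i h1 h2 => hd i h1 (h2.trans ha))
  | succ s ih =>
    intro a ha
    rcases a with _ | b
    · rw [binP_zero]; simpa using isZ_one
    · have e : (C (ν : ℂ) * X + C ((s + 1 : ℕ) : ℂ) : ℂ[X]) =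
          (X + 1 : ℂ[X]).comp (C (ν : ℂ) * X + C (s : ℂ)) := by
        simp only [Nat.cast_add, Nat.cast_one, map_add, map_one, Polynomial.add_comp,
          Polynomial.X_comp, Polynomial.one_comp]
        ring
      rw [e, ← Polynomial.comp_assoc, pascal, Polynomial.add_comp]
      exact (ih _ ha).add (ih _ (by omega))

theorem iter_comp (R : ℂ[X]) (u v : ℂ) (k : ℕ) :
    derivative^[k] (R.comp (C u * X + C v)) =
      C (u ^ k) * (derivative^[k] R).comp (C u * X + C v) := by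
  induction k with
  | zero => simp
  | succ k ih =>
    rw [Function.iterate_succ_apply', ih, Function.iterate_succ_apply', Polynomial.derivative_C_mul,
      Polynomial.derivative_comp]
    simp only [Polynomial.derivative_add, Polynomial.derivative_mul, Polynomial.derivative_C,
      zero_mul, Polynomial.derivative_X, mul_one, zero_add, add_zero]
    rw [pow_succ, C_mul]
    ring

theorem nu2 : T_NU2 := by
  intro h μ l k m s hμ hk
  have hd : ∀ i, 1 ≤ i → i ≤ h → i ∣ Nat.lcmUpto h := fun i h1 h2 => dvd_lcm h1 h2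
  obtain ⟨F, hF⟩ : IsZ ((RP h μ l).comp (C (Nat.lcmUpto h : ℂ) * X + C (s : ℂ))) := by
    unfold RP
    rw [Polynomial.mul_comp, Polynomial.pow_comp]
    exact (binP_shift _ h hd s μ hμ).mul ((binP_shift _ h hd s h le_rfl).pow l)
  have e1 := iter_comp (RP h μ l) (Nat.lcmUpto h : ℂ) (s : ℂ) k
  rw [← hF, Polynomial.iterate_derivative_map] at e1
  have e2 := congrArg (Polynomial.eval 0) e1
  simp only [Polynomial.eval_mul, Polynomial.eval_C, Polynomial.eval_comp, Polynomial.eval_add,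
    Polynomial.eval_X, mul_zero, zero_add] at e2
  refine ⟨(Nat.lcmUpto h : ℤ) ^ (m - k) * (derivative^[k] F).eval 0, ?_⟩
  have e3 : Polynomial.eval 0 (Polynomial.map (Int.castRingHom ℂ) (derivative^[k] F)) =
      (((derivative^[k] F).eval 0 : ℤ) : ℂ) := by
    rw [← Polynomial.coeff_zero_eq_eval_zero, ← Polynomial.coeff_zero_eq_eval_zero,
      Polynomial.coeff_map]
    simp
  rw [e3] at e2
  push_cast
  rw [e2, ← mul_assoc, ← pow_add, Nat.sub_add_cancel hk]

end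

end Pool.Agent.H30.BF
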