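import Mathlib
import Pool.Agent.H72.BF.Targets

open Polynomial Finset

namespace Pool.Agent.H30.BF

open Pool.Agent.H72.BF

noncomputable section

variable {ι : Type} [Fintype ι] [DecidableEq ι]

theorem rep_add (δ : ℕ) (θ : ι → ℂ) (Y Y' : ℝ) (x x' : ℂ) (h : Rep δ θ Y x) (h' : Rep δ θ Y' x') :
    Rep δ θ (Y + Y') (x + x') := by
  obtain ⟨c, hc, rfl⟩ := h
  obtain ⟨c', hc', rfl⟩ := h'
  refine ⟨fun e => c e + c' e, fun e => ?_, ?_⟩
  · push_cast
    exact (abs_add_le _ _).trans (add_le_add (hc e) (hc' e))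
  · rw [← Finset.sum_add_distrib]
    refine Finset.sum_congr rfl fun e _ => ?_
    push_cast
    ring

theorem rep_smul (δ : ℕ) (θ : ι → ℂ) (Y : ℝ) (x : ℂ) (a : ℤ) (h : Rep δ θ Y x) :
    Rep δ θ (|(a : ℝ)| * Y) ((a : ℂ) * x) := by
  obtain ⟨c, hc, rfl⟩ := h
  refine ⟨fun e => a * c e, fun e => ?_, ?_⟩
  · push_cast
    rw [abs_mul]
    exact mul_le_mul_of_nonneg_left (hc e) (abs_nonneg _)
  · rw [Finset.mul_sum]
    refine Finset.sum_congr rfl fun e _ => ?_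
    push_cast
    ring

theorem rep_int (δ : ℕ) (θ : ι → ℂ) (hδ : 1 ≤ δ) (a : ℤ) : Rep δ θ |(a : ℝ)| (a : ℂ) := by
  haveI : NeZero δ := ⟨by omega⟩
  refine ⟨fun e => if e = 0 then a else 0, fun e => ?_, ?_⟩
  · dsimp only
    split_ifs
    · exact le_rfl
    · simp
  · rw [Finset.sum_eq_single (0 : ι → Fin δ)]
    · simp
    · intro e _ he
      simp [he]
    · intro h
      exact absurd (Finset.mem_univ _) h

/-- one-variable reduction -/
theorem reduce (d : ℕ) (q : ℤ[X]) (hq : q.Monic) (hd : q.natDegree = d + 1) (t : ℂ)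
    (h0 : aeval t q = 0) (u : Fin (d + 1) → ℤ) :
    t * ∑ k : Fin (d + 1), (u k : ℂ) * t ^ (k : ℕ) =
      ∑ k : Fin (d + 1), (((Fin.cases 0 (fun j : Fin d => u j.castSucc) k : ℤ) -
        q.coeff k * u (Fin.last d) : ℤ) : ℂ) * t ^ (k : ℕ) := by
  have e1 : t ^ (d + 1) = - ∑ k : Fin (d + 1), (q.coeff k : ℂ) * t ^ (k : ℕ) := by
    rw [Polynomial.aeval_eq_sum_range, hd, Finset.sum_range_succ, ← hd, hq.coeff_natDegree, hd,
      Finset.sum_range] at h0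
    simp only [zsmul_eq_mul, Int.cast_one, one_mul] at h0
    linear_combination h0
  have e2 : ∀ k : Fin (d + 1), (((Fin.cases 0 (fun j : Fin d => u j.castSucc) k : ℤ) -
        q.coeff k * u (Fin.last d) : ℤ) : ℂ) * t ^ (k : ℕ) =
      ((Fin.cases 0 (fun j : Fin d => u j.castSucc) k : ℤ) : ℂ) * t ^ (k : ℕ) -
        (u (Fin.last d) : ℂ) * ((q.coeff k : ℂ) * t ^ (k : ℕ)) := by
    intro k
    push_cast
    ring
  rw [Finset.sum_congr rfl (fun k _ => e2 k), Finset.sum_sub_distrib, ← Finset.mul_sum]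
  have e3 : ∑ k : Fin (d + 1), ((Fin.cases 0 (fun j : Fin d => u j.castSucc) k : ℤ) : ℂ) *
      t ^ (k : ℕ) = ∑ j : Fin d, (u j.castSucc : ℂ) * t ^ ((j : ℕ) + 1) := by
    rw [Fin.sum_univ_succ]
    simp
  rw [e3, Fin.sum_univ_castSucc, mul_add, Finset.mul_sum]
  have e4 : ∀ j : Fin d, t * ((u j.castSucc : ℂ) * t ^ ((j.castSucc : Fin (d + 1)) : ℕ)) =
      (u j.castSucc : ℂ) * t ^ ((j : ℕ) + 1) := by
    intro j
    rw [Fin.val_castSucc]
    ring
  rw [Finset.sum_congr rfl (fun j _ => e4 j)]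
  have e5 : t * ((u (Fin.last d) : ℂ) * t ^ ((Fin.last d : Fin (d + 1)) : ℕ)) =
      (u (Fin.last d) : ℂ) * t ^ (d + 1) := by
    rw [Fin.val_last]
    ring
  rw [e5, e1]
  ring

theorem rep_theta (δ : ℕ) (θ : ι → ℂ) (hδ : 1 ≤ δ) (Y B : ℝ) (i : ι) (x : ℂ)
    (hi : IntB δ B (θ i)) (h : Rep δ θ Y x) : Rep δ θ ((1 + B) * Y) (θ i * x) := by
  obtain ⟨d, rfl⟩ : ∃ d, δ = d + 1 := ⟨δ - 1, by omega⟩
  obtain ⟨q, hq, hd, hB, h0⟩ := hi
  obtain ⟨c, hc, rfl⟩ := h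
  have hY : 0 ≤ Y := (abs_nonneg _).trans (hc 0)
  have hB0 : 0 ≤ B := (abs_nonneg _).trans (hB 0)
  -- coordinates
  let E := Equiv.funSplitAt i (Fin (d + 1))
  have key : ∀ c : (ι → Fin (d + 1)) → ℤ,
      ∑ e : ι → Fin (d + 1), (c e : ℂ) * ∏ j, θ j ^ (e j : ℕ) =
      ∑ r : ({j // j ≠ i} → Fin (d + 1)), (∏ j : {j // j ≠ i}, θ j ^ (r j : ℕ)) *
        ∑ k : Fin (d + 1), (c (E.symm (k, r)) : ℂ) * θ i ^ (k : ℕ) := by
    intro c
    rw [← E.symm.sum_comp, Fintype.sum_prod_type_right]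
    refine Finset.sum_congr rfl fun r _ => ?_
    rw [Finset.mul_sum]
    refine Finset.sum_congr rfl fun k _ => ?_
    have e1 : ∏ j, θ j ^ ((E.symm (k, r)) j : ℕ) =
        θ i ^ (k : ℕ) * ∏ j : {j // j ≠ i}, θ j ^ (r j : ℕ) := by
      rw [Fintype.prod_eq_mul_prod_subtype_ne (fun j => θ j ^ ((E.symm (k, r)) j : ℕ)) i]
      congr 1
      · simp [E, Equiv.funSplitAt]
      · refine Finset.prod_congr rfl fun j _ => ?_
        simp [E, Equiv.funSplitAt, j.2]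
    rw [e1]
    ring
  refine ⟨fun e => (Fin.cases 0 (fun j : Fin d => c (E.symm (j.castSucc, (E e).2))) (E e).1 : ℤ) -
      q.coeff ((E e).1 : ℕ) * c (E.symm (Fin.last d, (E e).2)), fun e => ?_, ?_⟩
  · push_cast
    have h1 : |((Fin.cases 0 (fun j : Fin d => c (E.symm (j.castSucc, (E e).2))) (E e).1 : ℤ) : ℝ)| ≤ Y := by
      refine Fin.cases ?_ (fun j => ?_) (E e).1
      · simpa using hY
      · simpa using hc _
    have h2 : |((q.coeff ((E e).1 : ℕ) : ℤ) : ℝ) * (c (E.symm (Fin.last d, (E e).2)) : ℝ)| ≤ B * Y := by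
      rw [abs_mul]
      exact mul_le_mul (hB _) (hc _) (abs_nonneg _) hB0
    calc _ ≤ _ := abs_sub _ _
      _ ≤ Y + B * Y := add_le_add h1 h2
      _ = (1 + B) * Y := by ring
  · rw [key, key, Finset.mul_sum]
    refine Finset.sum_congr rfl fun r _ => ?_
    have := reduce d q hq hd (θ i) h0 (fun k => c (E.symm (k, r)))
    simp only [Equiv.apply_symm_apply]
    rw [← this]
    ring

theorem rep : T_REP := by
  intro ι _ _ δ θ hδ
  exact ⟨rep_int δ θ hδ, rep_add δ θ, fun Y x a h => rep_smul δ θ Y x a h,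
    fun Y B i x hi h => rep_theta δ θ hδ Y B i x hi h⟩

end

end Pool.Agent.H30.BF
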